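import Pool.Agent.Helper66_D1.Tool
import Pool.Agent.Helper55_PP.Sur

/-!
# Part D1, module IRD: `V^P / (∑ P) V` is irreducible
-/

open scoped BigOperators

noncomputable section

namespace Pool.Agent.PP.D1.H65

open Pool.Agent.PP Pool.Agent.Helper51_AWC Pool.Agent.Helper79_WRA

section general

variable {F : Type} [Field F] {G : Type} [Group G]

/-- an irreducible matrix representation has no proper stable subspaces -/
theorem top_of_stb {n : ℕ} {σ : G →* Matrix (Fin n) (Fin n) F} (hσ : IsIrr σ)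
    {Z : Submodule F (Fin n → F)} (hZ : Z ≠ ⊥) (hs : Stb ⊤ (mrep σ) Z) : Z = ⊤ := by
  obtain ⟨v, hv, hv0⟩ := Submodule.exists_mem_ne_zero_of_ne_bot hZ
  rw [eq_top_iff]
  intro w _
  obtain ⟨A, rfl⟩ := CY66.exists_mulVec hv0 w
  have hA : A ∈ Submodule.span F (Set.range σ) := by rw [hσ.2]; trivial
  induction hA using Submodule.span_induction with
  | mem x hx =>
    obtain ⟨g, rfl⟩ := hx
    exact hs g (Subgroup.mem_top g) v hv
  | zero => rw [Matrix.zero_mulVec]; exact zero_mem _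
  | add x y _ _ hx hy =>
    rw [Matrix.add_mulVec]
    exact add_mem (hx trivial) (hy trivial)
  | smul a x _ hx =>
    rw [Matrix.smul_mulVec]
    exact Submodule.smul_mem _ _ (hx trivial)

/-- `b` acts as one -/
theorem evV_one [Finite G] {n : ℕ} {σ : G →* Matrix (Fin n) (Fin n) F} {b : G → F}
    (h : ev σ b = 1) (v : Fin n → F) : evV (mrep σ) b v = v := by
  have := Fintype.ofFinite G
  rw [D66.evV_apply]
  have h1 : (ev σ b).mulVec v = v := by rw [h, Matrix.one_mulVec]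
  unfold ev at h1
  rw [finsum_eq_sum_of_fintype, Matrix.sum_mulVec] at h1
  rw [← h1]
  refine Finset.sum_congr rfl fun g _ => ?_
  rw [Matrix.smul_mulVec, h1]
  rfl

end general

section quot

variable {F : Type} [Field F] {A : Type} [Group A] {V : Type} [AddCommGroup V] [Module F V]

/-- the representation on a subquotient -/
def qrep (ρ : Representation F A V) (K : Submodule F V) (hK : ∀ x, ∀ v ∈ K, ρ x v ∈ K)
    (M : Submodule F K) (hM : ∀ x, ∀ v ∈ M, (⟨ρ x v, hK x v v.2⟩ : K) ∈ M) :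
    Representation F A (K ⧸ M) where
  toFun x := M.mapQ M ((ρ x).restrict (hK x)) (fun v hv => hM x v hv)
  map_one' := by
    apply LinearMap.ext
    intro q
    obtain ⟨v, rfl⟩ := M.mkQ_surjective q
    have h1 : (⟨ρ 1 v, hK 1 v v.2⟩ : K) = v := by
      apply Subtype.ext
      show ρ 1 v = v
      rw [map_one]
      rfl
    exact congrArg M.mkQ h1
  map_mul' x y := by
    apply LinearMap.ext
    intro q
    obtain ⟨v, rfl⟩ := M.mkQ_surjective q
    have h1 : (⟨ρ (x * y) v, hK (x * y) v v.2⟩ : K) =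
        ⟨ρ x (ρ y v), hK x _ (hK y v v.2)⟩ := by
      apply Subtype.ext
      show ρ (x * y) v = ρ x (ρ y v)
      rw [map_mul]
      rfl
    exact congrArg M.mkQ h1

theorem qrep_apply (ρ : Representation F A V) (K : Submodule F V)
    (hK : ∀ x, ∀ v ∈ K, ρ x v ∈ K) (M : Submodule F K)
    (hM : ∀ x, ∀ v ∈ M, (⟨ρ x v, hK x v v.2⟩ : K) ∈ M) (x : A) (v : K) :
    qrep ρ K hK M hM x (M.mkQ v) = M.mkQ ⟨ρ x v, hK x v v.2⟩ := rfl

end quot

theorem ird (hKEY : KeyStmt) (hFR1 : Fr1Stmt) (hSOC : SocStmt) : IrdStmt := by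
  intro ℓ _ F _ hF G _ _ N P b hD A _ _ j hj n σ hσ hb
  have : IsAlgClosed F := hF.closed
  have hev := evV_one hb
  have hns : NSoc N (mrep σ) := (hSOC F G N hD.normal).1 n σ hσ
  have hfr : nrmV (mrep σ) P < fixV (mrep σ) P := hFR1 ℓ F hF G N P b hD n σ hσ hb
  have hjn : ∀ x, j x ∈ Subgroup.normalizer (P : Set G) := by
    intro x
    rw [← hj]
    exact ⟨x, rfl⟩
  have hfix : ∀ x, ∀ v ∈ fixV (mrep σ) P, mrep σ (j x) v ∈ fixV (mrep σ) P :=
    fun x v hv => D66.fix_stb _ (hjn x) hv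
  have hnrm : ∀ x, ∀ v ∈ nrmV (mrep σ) P, mrep σ (j x) v ∈ nrmV (mrep σ) P :=
    fun x v hv => CY66.nrm_stable _ (hjn x) hv
  -- the subquotient
  let K : Submodule F (Fin n → F) := fixV (mrep σ) P
  let M : Submodule F K := (nrmV (mrep σ) P).comap K.subtype
  let ρA : Representation F A (Fin n → F) := (mrep σ).comp j
  have hM : ∀ x, ∀ v ∈ M, (⟨ρA x v, hfix x v v.2⟩ : K) ∈ M := by
    intro x v hv
    exact hnrm x v hv
  let τ : Representation F A (K ⧸ M) := qrep ρA K hfix M hM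
  have hnt : Nontrivial (K ⧸ M) := by
    rw [Submodule.Quotient.nontrivial_iff]
    intro htop
    apply hfr.not_ge
    intro v hv
    have h1 : (⟨v, hv⟩ : K) ∈ M := by
      rw [htop]
      trivial
    exact h1
  have hsimple : ∀ W : Submodule F (K ⧸ M), (∀ g, ∀ v ∈ W, τ g v ∈ W) → W = ⊥ ∨ W = ⊤ := by
    intro W hW
    let Y : Submodule F (Fin n → F) := (W.comap M.mkQ).map K.subtype
    have hYK : Y ≤ fixV (mrep σ) P := by
      rintro _ ⟨v, _, rfl⟩
      exact v.2
    have hNY : nrmV (mrep σ) P ≤ Y := by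
      intro v hv
      refine ⟨⟨v, hfr.le hv⟩, ?_, rfl⟩
      have h1 : M.mkQ ⟨v, hfr.le hv⟩ = 0 := by
        rw [Submodule.mkQ_apply, Submodule.Quotient.mk_eq_zero]
        exact hv
      show M.mkQ ⟨v, hfr.le hv⟩ ∈ W
      rw [h1]
      exact zero_mem _
    have hYs : Stb (Subgroup.normalizer (P : Set G)) (mrep σ) Y := by
      intro g hg v hv
      rw [← hj] at hg
      obtain ⟨x, rfl⟩ := hg
      obtain ⟨u, hu, rfl⟩ := hv
      refine ⟨⟨ρA x u, hfix x u u.2⟩, ?_, rfl⟩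
      exact hW x _ hu
    by_cases hYN : Y = nrmV (mrep σ) P
    · left
      rw [eq_bot_iff]
      intro q hq
      obtain ⟨v, rfl⟩ := M.mkQ_surjective q
      have h1 : (v : Fin n → F) ∈ Y := ⟨v, hq, rfl⟩
      rw [hYN] at h1
      rw [Submodule.mem_bot, Submodule.mkQ_apply, Submodule.Quotient.mk_eq_zero]
      exact h1
    · right
      obtain ⟨Z, hZ0, hZs, hZY⟩ := hKEY ℓ F hF G N P b hD (Fin n → F) (mrep σ) hev hns Y
        (lt_of_le_of_ne hNY (Ne.symm hYN)) hYK hYs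
      have hZ := top_of_stb hσ hZ0 hZs
      rw [hZ, top_inf_eq] at hZY
      rw [eq_top_iff]
      intro q _
      obtain ⟨v, rfl⟩ := M.mkQ_surjective q
      obtain ⟨u, hu, huv⟩ := hZY v.2
      have h1 : u = v := Subtype.ext huv
      rw [← h1]
      exact hu
  obtain ⟨m, κ, e, hκ, he⟩ := H55.irr_of_simple τ hsimple
  obtain ⟨π, hπ⟩ := LinearMap.exists_extend (e.toLinearMap ∘ₗ M.mkQ)
  have hπv : ∀ v (hv : v ∈ fixV (mrep σ) P), π v = e (M.mkQ ⟨v, hv⟩) := by
    intro v hv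
    have := LinearMap.congr_fun hπ ⟨v, hv⟩
    exact this
  refine ⟨m, κ, π, hκ, ⟨?_, ?_, ?_⟩⟩
  · intro x v hv
    rw [hπv v hv, ← he, hπv _ (hfix x v hv)]
    rfl
  · intro v hv
    rw [hπv v hv, LinearEquiv.map_eq_zero_iff, Submodule.mkQ_apply,
      Submodule.Quotient.mk_eq_zero]
    rfl
  · intro w
    obtain ⟨v, hv⟩ := M.mkQ_surjective (e.symm w)
    refine ⟨v, v.2, ?_⟩
    rw [hπv _ v.2]
    change e (M.mkQ v) = w
    rw [hv, LinearEquiv.apply_symm_apply]

end Pool.Agent.PP.D1.H65
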